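import Mathlib
import Pool.Agent.Helper332.RealLine4

set_option autoImplicit false

namespace Pool.Agent.Results.MP_67c6ba_gt.RealNotSSeparable

open TopologicalSpace

/-- There is a Hausdorff abelian topological group `H`, all of whose closed subgroups are
separable, such that the product group `ℝ × H` has a closed subgroup that is not separable.
In other words, the additive group of the real line is not S-separable. -/
theorem result :
    ∃ (H : Type) (_ : AddCommGroup H) (_ : TopologicalSpace H),
      IsTopologicalAddGroup H ∧ T2Space H ∧
      (∀ K : AddSubgroup H, IsClosed (K : Set H) → SeparableSpace K) ∧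
      ∃ L : AddSubgroup (ℝ × H), IsClosed (L : Set (ℝ × H)) ∧ ¬ SeparableSpace L :=
  Pool.Agent.Helper332.RealLine.real_not_S_separable

end Pool.Agent.Results.MP_67c6ba_gt.RealNotSSeparable
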